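import Pool.Agent.H.MP_2f53c7.A

set_option autoImplicit false

open Set Filter Topology TopologicalSpace

namespace Pool.Agent.Results.MP_2f53c7_gt.Counter
open Pool.Agent.H.MP_2f53c7

variable {X : Type} [TopologicalSpace X]

/-- a legal move of Alice when the set `C` is already covered -/
def Legal (C : Set X) (m : Set X × (X → Set X)) : Prop :=
  (∀ x ∈ m.1, IsOpen (m.2 x) ∧ x ∈ m.2 x) ∧ m.1 ⊆ Cᶜ ∧ Cᶜ ⊆ ⋃ x ∈ m.1, m.2 x

/-- a legal answer of Bob -/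
def Answer (m : Set X × (X → Set X)) (D : Set X) : Prop := D ⊆ m.1 ∧ IsClosed D ∧ IsDiscrete D

/-- the strategy of Alice is winning -/
def Winning (σ : List (Set X) → Set X × (X → Set X)) : Prop :=
  ∀ (D : ℕ → Set X) (m : ℕ → Set X × (X → Set X)),
    (∀ n, m n = σ (List.ofFn fun i : Fin n => D i)) →
      (∀ n, (∀ k < n, Answer (m k) (D k)) → Legal (⋃ k < n, ⋃ x ∈ D k, (m k).2 x) (m n)) ∧
      ((∀ k, Answer (m k) (D k)) → (⋃ n, ⋃ x ∈ D n, (m n).2 x) ≠ univ)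

lemma first {M : Set (Set ℕ)} (h3 : ∀ B : Set ℕ, B.Infinite → ∃ A ∈ M, (A ∩ B).Infinite)
    (m : Set (Psi M) × (Psi M → Set (Psi M))) (h : Legal ∅ m) :
    ∃ D, Answer m D ∧ ∀ n, Sum.inl n ∈ ⋃ x ∈ D, m.2 x := by
  let D : ℕ → Set (Psi M) := fun k => {x | x ∈ m.1 ∧ ∀ n, x = Sum.inl n → n < k}
  have d : ∀ k, {n | Sum.inl n ∈ D k}.Finite := fun k =>
    (finite_lt_nat k).subset fun n hn => hn.2 n rfl
  have c : ∀ y, ∃ k, ∃ U, IsOpen U ∧ y ∈ U ∧ ∀ l ≥ k, U ⊆ ⋃ x ∈ D l, m.2 x := fun y => by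
    obtain ⟨x, x1, x2⟩ := mem_iUnion₂.1 (h.2.2 (notMem_empty y))
    refine ⟨x.elim (· + 1) fun _ => 0, m.2 x, (h.1 x x1).1, x2, fun l hl z hz =>
      mem_iUnion₂.2 ⟨x, ⟨x1, ?_⟩, hz⟩⟩
    rintro n rfl
    exact hl
  by_contra! hc
  choose b hb using fun k => hc (D k) ⟨fun _ h => h.1, closed_of (d k), discrete_of (d k)⟩
  have f : ∀ n, {k | b k = n}.Finite := fun n => by
    obtain ⟨k, U, -, u2, u3⟩ := c (Sum.inl n)
    exact (finite_lt_nat k).subset fun l hl => not_le.1 fun e => hb l (u3 l e (by rwa [hl]))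
  obtain ⟨A, hA⟩ := acc h3 (B := range b) fun k => infinite_univ
    ((k.biUnion fun n _ => f n).subset fun l _ => mem_biUnion ⟨l, rfl⟩ rfl)
  obtain ⟨k, U, u1, u2, u3⟩ := c (Sum.inr A)
  refine hA U u1 u2 (((finite_lt_nat k).image b).subset ?_)
  rintro _ ⟨⟨l, rfl⟩, hl⟩
  exact ⟨l, not_le.1 fun e => hb l (u3 l e hl), rfl⟩

theorem result : ∃ (X : Type) (_ : TopologicalSpace X), T3Space X ∧ Infinite X ∧
    (¬∃ σ : List (Set X) → Set X × (X → Set X), Winning σ) ∧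
    ∃ B : Set (Set X), IsTopologicalBasis B ∧
      ¬∃ C ⊆ B, ⋃₀ C = univ ∧ LocallyFinite fun U : C => U.1 := by
  obtain ⟨M, h1, h2, hM, h3⟩ := H.MP_ba0d78_gt.exists_mad
  refine ⟨Psi M, inferInstance, t3 hM, inferInstanceAs (Infinite (ℕ ⊕ M)), fun ⟨σ, hσ⟩ => ?_,
    {V | IsOpen V ∧ {A : M | Sum.inr A ∈ V}.Subsingleton}, isTopologicalBasis_of_isOpen_of_nhds
      (fun _ h => h.1) fun x U hx hU => ?_, fun ⟨C, c1, c2, c3⟩ => ?_⟩
  · obtain ⟨D₀, a1, a2⟩ := first h3 (σ []) (by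
      simpa using (hσ (fun _ => ∅) _ fun _ => rfl).1 0 (by simp))
    let D : ℕ → Set (Psi M) := fun n => match n with
      | 0 => D₀
      | 1 => (σ [D₀]).1
      | _ + 2 => ∅
    obtain ⟨b1, b2⟩ := hσ D _ fun _ => rfl
    have l : Legal (⋃ x ∈ D₀, (σ []).2 x) (σ [D₀]) := by
      simpa [D] using b1 1 fun k hk => by rw [Nat.lt_one_iff.1 hk]; exact a1
    have f : {n | Sum.inl n ∈ (σ [D₀]).1}.Finite := finite_empty.subset fun n hn => l.2.1 hn (a2 n)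
    refine b2 (fun k => ?_) (eq_univ_of_forall fun y => ?_)
    · match k with
      | 0 => exact a1
      | 1 => exact ⟨subset_rfl, closed_of f, discrete_of f⟩
      | _ + 2 => exact ⟨empty_subset _, isClosed_empty, discrete_of finite_empty⟩
    · by_cases e : y ∈ ⋃ x ∈ D₀, (σ []).2 x
      exacts [mem_iUnion.2 ⟨0, e⟩, mem_iUnion.2 ⟨1, l.2.2 e⟩]
  · obtain ⟨V, v1, v2, v3, v4⟩ := small hM x hU hx
    exact ⟨V, ⟨v1.2, fun A a B b => Sum.inr.inj ((v4 A a).trans (v4 B b).symm)⟩, v2, v3⟩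
  · have := h1.to_subtype
    choose V v1 v2 using fun A : M => c2.ge (mem_univ (Sum.inr A))
    choose b b1 b2 using fun A : M => ((h2 A A.2).sdiff ((c1 (v1 A)).1 A (v2 A))).nonempty
    have b3 : ∀ A, Sum.inl (b A) ∈ V A := fun A => not_not.1 fun k => b2 A ⟨b1 A, k⟩
    have inj : Function.Injective fun A => (⟨V A, v1 A⟩ : C) := fun A B e =>
      (c1 (v1 A)).2 (v2 A) (by rw [show V A = V B from congrArg Subtype.val e]; exact v2 B)
    have lf := c3.comp_injective inj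
    obtain ⟨A, hA⟩ := acc h3 (B := range b) fun k => infinite_univ
      ((k.biUnion fun n _ => lf.point_finite (Sum.inl n)).subset fun A _ =>
        mem_biUnion ⟨A, rfl⟩ (b3 A))
    obtain ⟨t, t1, t2⟩ := lf (Sum.inr A)
    refine hA (interior t) isOpen_interior ((mem_interior_iff_mem_nhds (X := Psi M)).2 t1)
      ((t2.image b).subset ?_)
    rintro _ ⟨⟨B, rfl⟩, hB⟩
    exact ⟨B, ⟨_, b3 B, interior_subset (s := t) hB⟩, rfl⟩

end Pool.Agent.Results.MP_2f53c7_gt.Counter
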